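import Pool.Agent.P.MP_d1c5a4_lc.NS.Spr

/-! Closed functions are juntas on most members of a design. -/

namespace Pool.Agent.P.MP_d1c5a4_lc.NS

open Finset Classical NL

variable {Ω Θ X : Type} [Fintype Ω] [DecidableEq Ω] [Fintype Θ] [Fintype X]

/-- Closed functions. -/
def Cl (Z : Θ → Finset Ω) (s : ℕ) (ε : ℝ) (g : MF Ω) : Prop :=
  ∀ A : Finset Ω, A.card ≤ s → pr (fun ω => ¬ g (A ∪ Z ω)) ≤ ε → g A

theorem clos (Z : Θ → Finset Ω) (s : ℕ) {ε : ℝ} (hε : 0 ≤ ε) (u : ℕ) (f : MF Ω) (hf : Mo f)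
    (hu : (rej s f).card ≤ u) :
    ∃ g : MF Ω, Mo g ∧ (∀ Y, f Y → g Y) ∧ Cl Z s ε g ∧
      (∀ Y, g Y → f Y ∨ ∃ A ⊆ Y, A.card ≤ s ∧ g A) ∧
      pr (fun ω => ∃ Y, Z ω ⊆ Y ∧ g Y ∧ ¬ f Y) ≤ u * ε := by
  induction u generalizing f with
  | zero =>
    refine ⟨f, hf, fun _ => id, fun A hA _ => ?_, fun _ => Or.inl, by rw [pr_false (by simp)]; simp⟩
    by_contra hc
    have := card_pos.2 ⟨A, mem_rej.2 ⟨hA, hc⟩⟩
    omega
  | succ u ih =>
    by_cases hc : Cl Z s ε f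
    · exact ⟨f, hf, fun _ => id, hc, fun _ => Or.inl, by rw [pr_false (by simp)]; positivity⟩
    obtain ⟨A, a1, a2, a3⟩ : ∃ A : Finset Ω, A.card ≤ s ∧
        pr (fun ω => ¬ f (A ∪ Z ω)) ≤ ε ∧ ¬ f A := by
      simpa [Cl] using hc
    obtain ⟨g, g1, g2, g3, g4, g5⟩ := ih (fun Y => f Y ∨ A ⊆ Y)
      (fun Y Y' h h' => h'.imp (hf Y Y' h) fun a => a.trans h) (by
        refine Nat.le_of_lt_succ (lt_of_lt_of_le (card_lt_card ⟨fun B hB => ?_, fun h => ?_⟩) hu)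
        · simp only [mem_rej, not_or] at hB ⊢
          exact ⟨hB.1, hB.2.1⟩
        · simpa [mem_rej] using h (mem_rej.2 ⟨a1, a3⟩))
    refine ⟨g, g1, fun Y h => g2 Y (Or.inl h), g3, fun Y h => ?_, ?_⟩
    · rcases g4 Y h with (h | h) | h
      · exact Or.inl h
      · exact Or.inr ⟨A, h, a1, g2 A (Or.inr subset_rfl)⟩
      · exact Or.inr h
    · refine (pr_le_or (F := fun ω => ∃ Y, Z ω ⊆ Y ∧ g Y ∧ ¬ (f Y ∨ A ⊆ Y))
        (G := fun ω => ¬ f (A ∪ Z ω)) ?_).trans ?_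
      · rintro ω ⟨Y, b1, b2, b3⟩
        by_cases h : A ⊆ Y
        · exact Or.inr fun h' => b3 (hf _ _ (union_subset h b1) h')
        · exact Or.inl ⟨Y, b1, b2, fun h' => h'.elim b3 h⟩
      · push_cast
        linarith

/-- The small minimal sets that are accepted. -/
noncomputable def mn (s : ℕ) (g : MF Ω) : Finset (Finset Ω) :=
  univ.filter fun T => T.card ≤ s ∧ g T ∧ ∀ T' ⊆ T, g T' → T' = T

theorem mem_mn {s : ℕ} {g : MF Ω} {T : Finset Ω} :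
    T ∈ mn s g ↔ T.card ≤ s ∧ g T ∧ ∀ T' ⊆ T, g T' → T' = T := by simp [mn]

theorem ex_mn {s : ℕ} {g : MF Ω} {A : Finset Ω} (h1 : A.card ≤ s) (h2 : g A) :
    ∃ T ∈ mn s g, T ⊆ A := by
  obtain ⟨T, a, b⟩ := exists_min_image (A.powerset.filter g) card ⟨A, by simp [h2]⟩
  simp only [mem_filter, mem_powerset] at a b
  exact ⟨T, mem_mn.2 ⟨(card_le_card a.1).trans h1, a.2, fun T' c d =>
    eq_of_subset_of_card_le c (b T' ⟨c.trans a.1, d⟩)⟩, a.1⟩

theorem wt {Z : Θ → Finset Ω} {s : ℕ} {κ ε l : ℝ} (hZ : Sp Z s κ ε) {g : MF Ω} (hg : Mo g)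
    (hc : Cl Z s ε g) (hl : 0 ≤ l) (hκ : 0 < κ) (hκl : κ * l ≤ 1) (C : Finset Ω) :
    ∑ T ∈ mn s g with C ⊂ T, l ^ (T \ C).card ≤ κ * l := by
  obtain ⟨I, hI⟩ : ∃ I, I = (mn s g).filter (C ⊂ ·) := ⟨_, rfl⟩
  obtain ⟨A, -, hA⟩ := exists_max_image univ (fun A : Finset Ω =>
    (∑ T ∈ I with A ⊆ T \ C, l ^ (T \ C).card) * κ ^ A.card) univ_nonempty
  have h0 := hA ∅ (mem_univ _)
  simp only [empty_subset, filter_true, card_empty, pow_zero, mul_one] at h0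
  rw [← hI]
  refine h0.trans ?_
  rcases (sum_nonneg fun T _ => pow_nonneg hl (T \ C).card :
    0 ≤ ∑ T ∈ I with A ⊆ T \ C, l ^ (T \ C).card).eq_or_lt with h | h
  · rw [← h, zero_mul]
    positivity
  have m1 : ∀ T ∈ I.filter (fun T => A ⊆ T \ C), T ∈ mn s g ∧ C ⊂ T ∧ A ⊆ T \ C := fun T hT => by
    rw [mem_filter, hI, mem_filter] at hT
    exact ⟨hT.1.1, hT.1.2, hT.2⟩
  have m2 : ∀ T ∈ I.filter (fun T => A ⊆ T \ C), C ∪ A ⊆ T := fun T hT =>
    union_subset (m1 T hT).2.1.1 ((m1 T hT).2.2.trans sdiff_subset)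
  obtain ⟨T, hT⟩ := nonempty_of_sum_ne_zero h.ne'
  have h1 := hZ _ (fun T => l ^ (T \ C).card) (fun T => (T \ C) \ A) (fun _ _ => by positivity) h
    (fun T hT => (card_le_card (sdiff_subset.trans sdiff_subset)).trans
      (mem_mn.1 (m1 T hT).1).1) fun S => by
      by_cases hS : Disjoint A S
      · have := hA (A ∪ S) (mem_univ _)
        rw [card_union_of_disjoint hS, pow_add, mul_comm (κ ^ _), ← mul_assoc] at this
        refine le_trans (mul_le_mul_of_nonneg_right (sum_le_sum_of_subset_of_nonneg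
          (fun T hT => ?_) fun _ _ _ => by positivity) (by positivity))
          (le_of_mul_le_mul_right this (by positivity))
        simp only [mem_filter] at hT ⊢
        exact ⟨hT.1.1, union_subset hT.1.2 (hT.2.trans sdiff_subset)⟩
      · rw [filter_false_of_mem (s := I.filter _) fun T _ a =>
          hS (disjoint_sdiff.mono_right a), sum_empty, zero_mul]
        exact h.le
  have h2 : g (C ∪ A) := hc _ ((card_le_card (m2 T hT)).trans (mem_mn.1 (m1 T hT).1).1)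
    (le_trans (pr_mono fun ω a ⟨T, b, c⟩ => a (hg _ _ (fun p hp => by
      have := @c p
      simp only [mem_sdiff, mem_union] at this ⊢
      tauto) (mem_mn.1 (m1 T b).1).2.1)) h1)
  have h3 : ∀ T ∈ I.filter (fun T => A ⊆ T \ C), C ∪ A = T := fun T hT =>
    (mem_mn.1 (m1 T hT).1).2.2 _ (m2 T hT) h2
  have h4 : T \ C = A := by
    refine subset_antisymm ?_ (m1 T hT).2.2
    rw [← h3 T hT, union_sdiff_left]
    exact sdiff_subset
  have h5 : 1 ≤ A.card := h4 ▸ card_pos.2 (sdiff_nonempty.2 (m1 T hT).2.1.2)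
  rw [sum_eq_single_of_mem T hT fun T' a b => absurd ((h3 T' a).symm.trans (h3 T hT)) b, h4,
    ← mul_pow, mul_comm l]
  exact pow_le_of_le_one (by positivity) hκl (by omega)

theorem wt2 {Z : Θ → Finset Ω} {s j : ℕ} {κ ε l : ℝ} (hZ : Sp Z s κ ε) {g : MF Ω} (hg : Mo g)
    (hc : Cl Z s ε g) (hl : 0 ≤ l) (hκ : 0 < κ) (hκl : 2 ^ j * (κ * l) ≤ 1) (W : Finset Ω)
    (hW : W.card ≤ j) : ∑ T ∈ mn s g with ¬ T ⊆ W, l ^ (T \ W).card ≤ 1 := by
  have h1 : (1 : ℝ) ≤ 2 ^ j := one_le_pow₀ one_le_two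
  rw [← sum_fiberwise_of_maps_to (t := W.powerset) (g := fun T => T ∩ W) fun T _ =>
    mem_powerset.2 inter_subset_right]
  refine le_trans (sum_le_card_nsmul _ _ (κ * l) fun C _ => le_trans ?_
    (wt hZ hg hc hl hκ (le_trans (le_mul_of_one_le_left (by positivity) h1) hκl) C)) ?_
  · refine le_trans (le_of_eq (sum_congr rfl fun T hT => ?_)) (sum_le_sum_of_subset_of_nonneg
      (fun T hT => ?_) fun _ _ _ => by positivity)
    · rw [← (mem_filter.1 hT).2, sdiff_inter_self_left]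
    · simp only [mem_filter] at hT ⊢
      exact ⟨hT.1.1, hT.2 ▸ ⟨inter_subset_left, fun a => hT.1.2 (a.trans inter_subset_right)⟩⟩
  · rw [card_powerset, nsmul_eq_mul]
    refine le_trans (mul_le_mul_of_nonneg_right ?_ (by positivity)) hκl
    exact_mod_cast Nat.pow_le_pow_right two_pos hW

omit [Fintype Ω] in
theorem grow {U : X → Finset Ω} {M : Finset (Finset Ω)} {j s k : ℕ} {l η : ℝ}
    (hs : ∀ T ∈ M, T.card ≤ s) (hk : j + s ≤ k)
    (hU : ∀ S : Finset Ω, S.card ≤ k → pr (fun x => S ⊆ U x) ≤ (l * η) ^ S.card) (h0 : 0 ≤ η)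
    (h1 : η ≤ 1) (hl : 0 ≤ l)
    (hM : ∀ W : Finset Ω, W.card ≤ j → ∑ T ∈ M with ¬ T ⊆ W, l ^ (T \ W).card ≤ 1) (i : ℕ)
    (W : Finset Ω) (hW : W.card ≤ k) (hi : j + 1 ≤ W.card + i) :
    pr (fun x => W ⊆ U x ∧ j < (W ∪ (M.filter (· ⊆ U x)).biUnion id).card) ≤
      l ^ W.card * η ^ (j + 1) := by
  have key : ∀ W : Finset Ω, W.card ≤ k → j + 1 ≤ W.card →
      pr (fun x => W ⊆ U x ∧ j < (W ∪ (M.filter (· ⊆ U x)).biUnion id).card) ≤
        l ^ W.card * η ^ (j + 1) := fun W a b => by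
    refine (pr_mono fun x h => h.1).trans ((hU W a).trans ?_)
    rw [mul_pow]
    exact mul_le_mul_of_nonneg_left (pow_le_pow_of_le_one h0 h1 b) (by positivity)
  induction i generalizing W with
  | zero => exact key W hW hi
  | succ i ih =>
    rcases le_or_gt (j + 1) W.card with h | h
    · exact key W hW h
    refine le_trans (pr_mono (F := fun x => ∃ T ∈ M.filter (fun T => ¬ T ⊆ W), W ∪ T ⊆ U x ∧
      j < (W ∪ T ∪ (M.filter (· ⊆ U x)).biUnion id).card) fun x ⟨a, b⟩ => ?_)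
      ((pr_ex' _ _).trans (le_trans (sum_le_sum (g := fun T => l ^ W.card * η ^ (j + 1) *
        l ^ (T \ W).card) fun T hT => ?_) ?_))
    · by_contra hc
      refine absurd b (not_lt.2 (le_trans (card_le_card (union_subset subset_rfl
        (biUnion_subset.2 fun T hT => ?_))) (by omega : W.card ≤ j)))
      by_contra hd
      rw [mem_filter] at hT
      exact hc ⟨T, mem_filter.2 ⟨hT.1, hd⟩, union_subset a hT.2, b.trans_le (card_le_card
        (union_subset_union subset_union_left subset_rfl))⟩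
    · rw [mem_filter] at hT
      have e1 : (W ∪ T).card = W.card + (T \ W).card := by
        rw [union_comm, ← card_sdiff_add_card, add_comm]
      have e2 : 1 ≤ (T \ W).card := card_pos.2 (sdiff_nonempty.2 hT.2)
      have e3 : (T \ W).card ≤ s := (card_le_card sdiff_subset).trans (hs T hT.1)
      refine (ih (W ∪ T) (by omega) (by omega)).trans (le_of_eq ?_)
      rw [e1, pow_add, mul_right_comm]
    · rw [← mul_sum]
      exact mul_le_of_le_one_right (by positivity) (hM W (by omega))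

/-- The standing assumptions on the noise and on the design. -/
structure Ok (Z : Θ → Finset Ω) (U : X → Finset Ω) (j s : ℕ) (ε η : ℝ) : Prop where
  he : 0 ≤ ε
  h0 : 0 ≤ η
  h1 : η ≤ 1
  ex : ∃ κ l : ℝ, 0 < κ ∧ 0 ≤ l ∧ 2 ^ j * (κ * l) ≤ 1 ∧ Sp Z s κ ε ∧
    ∀ S : Finset Ω, S.card ≤ j + s → pr (fun x => S ⊆ U x) ≤ (l * η) ^ S.card

variable {Z : Θ → Finset Ω} {U : X → Finset Ω} {w j s : ℕ} {ε η : ℝ}

theorem junta (ok : Ok Z U j s ε η) {g : MF Ω} (hg : Mo g) (hc : Cl Z s ε g) :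
    pr (fun x => ¬ ∃ D : Finset Ω, D.card ≤ j ∧ ∀ A ⊆ U x, A.card ≤ s → g A → g (A ∩ D)) ≤
      η ^ (j + 1) := by
  obtain ⟨κ, l, a1, a2, a3, a4, a5⟩ := ok.ex
  have := grow (M := mn s g) (fun T hT => (mem_mn.1 hT).1) le_rfl a5 ok.h0 ok.h1 a2
    (wt2 a4 hg hc a2 a1 a3) (j + 1) ∅ (by simp) (by simp)
  simp only [empty_subset, true_and, empty_union, card_empty, pow_zero, one_mul] at this
  refine le_trans (pr_mono fun x h => not_le.1 fun h' => h ⟨_, h', fun A b1 b2 b3 => ?_⟩) this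
  obtain ⟨T, c1, c2⟩ := ex_mn b2 b3
  exact hg _ _ (subset_inter c2 (subset_biUnion_of_mem id (mem_filter.2 ⟨c1, c2.trans b1⟩)))
    (mem_mn.1 c1).2.1

theorem apx1 (ok : Ok Z U j s ε η) (hj : 1 ≤ j) (hs : w * j ≤ s) (B : Finset Ω) {m : ℕ}
    {S : Set (MF Ω)} (h : MS w (Vr Ω) m S) : ∃ (ap : MF Ω → MF Ω) (Bd : X → Prop) (E : Θ → Prop),
      pr Bd ≤ m * η ^ (j + 1) ∧
      pr E ≤ m * (((s + 1) * (Fintype.card Ω + 1) ^ s : ℕ) * ε) ∧ ∀ f ∈ S, Mo (ap f) ∧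
        (∀ Y, f (B ∪ Y) → ap f Y) ∧ (∀ ω, ¬ E ω → ∀ Y, Z ω ⊆ Y → ap f Y → f (B ∪ Y)) ∧
        ∀ x, ¬ Bd x → ∃ D : Finset Ω, D.card ≤ j ∧ ∀ Y ⊆ U x, ap f Y → ap f (Y ∩ D) := by
  induction m generalizing S with
  | zero =>
    refine ⟨fun f Y => f (B ∪ Y), fun _ => False, fun _ => False, by
      rw [pr_false (by simp)]; simp, by rw [pr_false (by simp)]; simp, fun f hf => ?_⟩
    obtain ⟨p, rfl⟩ := h hf
    refine ⟨fun Y Y' a b => union_subset_union subset_rfl a b, fun _ => id, fun _ _ _ _ => id,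
      fun U _ => ⟨{p}, by simpa, fun Y _ => ?_⟩⟩
    simp only [mem_union, mem_inter, mem_singleton, and_true, imp_self]
  | succ m ih =>
    obtain ⟨S', g, a, ⟨P, b1, b2, b3⟩, c⟩ := h
    obtain ⟨ap, Bd, E, d1, d3, d4⟩ := ih a
    obtain ⟨g', g1, g2, g3, g4, g5⟩ := clos Z s ok.he _
      (fun Y => ∃ Y', g Y' ∧ ∀ f ∈ P, f Y' → ap f Y)
      (fun Y Y' h ⟨Z, z1, z2⟩ => ⟨Z, z1, fun f hf h' => (d4 f (b1 f hf)).1 _ _ h (z2 f hf h')⟩)
      ((card_le_card fun A hA => mem_filter.2 ⟨mem_univ _, (mem_rej.1 hA).1⟩).trans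
        (small_card s))
    have e1 := junta ok g1 g3
    refine ⟨fun f => if f ∈ S' then ap f else g', fun x => Bd x ∨ ¬ ∃ D : Finset Ω, D.card ≤ j ∧
      ∀ A ⊆ U x, A.card ≤ s → g' A → g' (A ∩ D), fun ω => E ω ∨ ∃ Y, Z ω ⊆ Y ∧ g' Y ∧
      ¬ ∃ Y', g Y' ∧ ∀ f ∈ P, f Y' → ap f Y, (pr_or _ _).trans ?_, (pr_or _ _).trans ?_,
      fun f hf => ?_⟩
    · push_cast
      linarith
    · push_cast at d3 g5 ⊢
      linarith
    by_cases hS : f ∈ S'
    · simp only [hS, if_true]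
      obtain ⟨f1, f2, f3, f4⟩ := d4 f hS
      exact ⟨f1, f2, fun ω h => f3 ω fun h' => h (Or.inl h'),
        fun x h => f4 x fun h' => h (Or.inl h')⟩
    obtain rfl : f = g := (c hf).resolve_right hS
    simp only [hS, if_false]
    refine ⟨g1, fun Y h => g2 Y ⟨_, h, fun f' hf' => (d4 f' (b1 f' hf')).2.1 Y⟩,
      fun ω h Y h1 h2 => ?_, fun x hx => ?_⟩
    · obtain ⟨Z, z1, z2⟩ : ∃ Y', f Y' ∧ ∀ f ∈ P, f Y' → ap f Y := by
        by_contra hc
        exact h (Or.inr ⟨Y, h1, h2, hc⟩)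
      exact b3 Z _ (fun f' hf' h' => (d4 f' (b1 f' hf')).2.2.1 ω (fun a => h (Or.inl a)) Y h1
        (z2 f' hf' h')) z1
    · obtain ⟨hx, D, e2, e3⟩ := (not_or.1 hx).imp_right not_not.1
      refine ⟨D, e2, fun Y hY h => ?_⟩
      obtain ⟨A, a1, a2, a3⟩ : ∃ A ⊆ Y, A.card ≤ s ∧ g' A := by
        refine (g4 Y h).elim (fun ⟨Z, z1, z2⟩ => ?_) id
        choose! D' k1 k2 using fun f' hf' => (d4 f' (b1 f' hf')).2.2.2 x hx
        refine ⟨Y ∩ P.biUnion D', inter_subset_left, (card_le_card inter_subset_right).trans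
          ((card_biUnion_le_card_mul _ _ _ k1).trans ((Nat.mul_le_mul_right _ b2).trans hs)),
          g2 _ ⟨Z, z1, fun f' hf' h' => (d4 f' (b1 f' hf')).1 _ _ ?_ (k2 f' hf' Y hY (z2 f' hf' h'))⟩⟩
        exact inter_subset_inter_left (subset_biUnion_of_mem D' hf')
      exact g1 _ _ (inter_subset_inter_right a1) (e3 A (a1.trans hY) a2 a3)

theorem apx2 (ok : Ok Z U j s ε η) (hj : 1 ≤ j) (hs : w * j ≤ s) (B : Finset Ω) {m : ℕ}
    {S : Set (MF Ω)} (h : MS w (Vr Ω) m S) : ∃ Bd : X → Prop, pr Bd ≤ m * η ^ (j + 1) ∧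
      pr (fun ω => ¬ ∀ x, ¬ Bd x → ∀ f ∈ S, Sw j (U x) B (B ∪ Z ω) f) ≤
        m * (((s + 1) * (Fintype.card Ω + 1) ^ s : ℕ) * ε) := by
  obtain ⟨ap, Bd, E, d1, d3, d4⟩ := apx1 ok hj hs B h
  refine ⟨Bd, d1, le_trans (pr_mono fun ω hω => ?_) d3⟩
  by_contra hc
  refine hω fun x hx f hf => ?_
  obtain ⟨f1, f2, f3, f4⟩ := d4 f hf
  obtain ⟨D, k1, k2⟩ := f4 x hx
  refine ⟨D, k1, fun Y hY a => ?_⟩
  rw [union_assoc]
  exact f3 ω hc _ subset_union_left (f1 _ _ subset_union_right (k2 Y hY (f2 Y a)))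

end Pool.Agent.P.MP_d1c5a4_lc.NS
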