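import Pool.Agent.P.MP_d1c5a4_lc.NS.Clo2

/-! The lower bound for an abstract design, with a long chain of backgrounds. -/

namespace Pool.Agent.P.MP_d1c5a4_lc.NS

open Finset Classical NL

theorem unif {X P A : Type} [Fintype X] [Fintype P] [Fintype A] [DecidableEq P] [DecidableEq A]
    [Nonempty A] {k : ℕ} (val : X → P → A)
    (h : ∀ x x', x ≠ x' → (univ.filter fun p => val x p = val x' p).card < k)
    (hk : k ≤ Fintype.card P) (hX : Fintype.card X = Fintype.card A ^ k) (S : Finset (P × A))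
    (hS : S.card ≤ k) : pr (fun x => S ⊆ univ.image fun p => (p, val x p)) ≤
      (1 / (Fintype.card A : ℝ)) ^ S.card := by
  have e0 : ∀ x, S ⊆ univ.image (fun p => (p, val x p)) → ∀ y ∈ S, val x y.1 = y.2 := fun x a y b => by
    obtain ⟨p, -, rfl⟩ := mem_image.1 (a b)
    rfl
  by_cases h0 : ∃ x, S ⊆ univ.image fun p => (p, val x p)
  swap
  · rw [pr_false (not_exists.1 h0)]
    positivity
  obtain ⟨x₀, h0⟩ := h0
  have e1 : (S.image Prod.fst).card = S.card := card_image_of_injOn fun y a y' b c =>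
    Prod.ext c (by rw [← e0 x₀ h0 y a, ← e0 x₀ h0 y' b, c])
  obtain ⟨T, t1, -, t2⟩ := exists_subsuperset_card_eq (subset_univ (S.image Prod.fst))
    (e1.trans_le hS) hk
  have e2 : (univ.filter fun x => S ⊆ univ.image fun p => (p, val x p)).card ≤
      Fintype.card A ^ (k - S.card) := by
    refine (card_le_card_of_injOn (t := univ) (fun x (p : ↥(T \ S.image Prod.fst)) => val x p)
      (fun _ _ => mem_coe.2 (mem_univ _)) fun x a x' b c => ?_).trans ?_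
    · by_contra hc
      refine absurd (h x x' hc) (not_lt.2 (t2.ge.trans (card_le_card fun p hp =>
        mem_filter.2 ⟨mem_univ _, ?_⟩)))
      by_cases d : p ∈ S.image Prod.fst
      · obtain ⟨y, d', rfl⟩ := mem_image.1 d
        rw [e0 x (mem_filter.1 (mem_coe.1 a)).2 y d', e0 x' (mem_filter.1 (mem_coe.1 b)).2 y d']
      · exact congrFun c ⟨p, mem_sdiff.2 ⟨hp, d⟩⟩
    · rw [card_univ, Fintype.card_fun, Fintype.card_coe, card_sdiff_of_subset t1, t2, e1]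
  have hc : (0 : ℝ) < Fintype.card A := by exact_mod_cast Fintype.card_pos
  unfold pr
  rw [hX, one_div, inv_pow, div_le_iff₀ (by push_cast; positivity), inv_mul_eq_div,
    le_div_iff₀ (by positivity)]
  obtain ⟨i, rfl⟩ := Nat.exists_eq_add_of_le' hS
  rw [Nat.add_sub_cancel] at e2
  rw [pow_add]
  push_cast
  refine mul_le_mul_of_nonneg_right ?_ (by positivity)
  convert (Nat.cast_le (α := ℝ)).2 e2 using 1
  · congr
  · exact (Nat.cast_pow _ _).symm

variable {Ω Θ X : Type} [Fintype Ω] [DecidableEq Ω] [Fintype Θ] [Fintype X] [Nonempty Θ]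
  [Nonempty X] {Z : Θ → Finset Ω} {U : X → Finset Ω} {w j s : ℕ} {ε η : ℝ}

/-- The potential. -/
noncomputable def pot (U : X → Finset Ω) (B : Finset Ω) : ℝ := ∑ x, 2 ^ (B ∩ U x).card

omit [Fintype Ω] in
theorem pot_step {a : ℕ} {p δ : ℝ} (hp : 0 ≤ p)
    (hZ : ∀ S : Finset Ω, pr (fun ω => S ⊆ Z ω) ≤ p ^ S.card) (ha : ∀ x, (U x).card ≤ a)
    (h1 : 4 * a * p ≤ δ) (h2 : 0 < δ) (h3 : δ ≤ 1) (B : Finset Ω) :
    pr (fun ω => δ * pot U B ≤ pot U (B ∪ Z ω) - pot U B) ≤ 1 / 2 := by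
  have h0 : 0 < pot U B := sum_pos (fun _ _ => by positivity) univ_nonempty
  refine mark (fun ω => sub_nonneg.2 (sum_le_sum fun x _ => pow_le_pow_right₀ one_le_two
    (card_le_card (inter_subset_inter_right subset_union_left)))) (by positivity) ?_
  have e1 : ∀ x, ∑ ω, (2 : ℝ) ^ (Z ω ∩ U x).card ≤ Fintype.card Θ * (1 + δ / 2) := fun x => by
    have e2 : ∀ ω, (2 : ℝ) ^ (Z ω ∩ U x).card =
        ∑ S ∈ (U x).powerset, if S ⊆ Z ω then 1 else 0 := fun ω => by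
      rw [← one_add_one_eq_two, ← sum_pw, ← sum_filter]
      refine sum_congr ?_ fun _ _ => one_pow _
      ext S
      simp only [mem_powerset, mem_filter, subset_inter_iff, and_comm]
    rw [sum_congr rfl fun ω _ => e2 ω, sum_comm, sum_congr rfl fun S _ => sum_ind _ _, ← mul_sum]
    refine mul_le_mul_of_nonneg_left ((sum_le_sum fun S _ => (one_mul _).trans_le (hZ S)).trans ?_)
      (by positivity)
    rw [sum_pw]
    have := pow_lin hp a (by linarith)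
    have := pow_le_pow_right₀ (le_add_of_nonneg_right hp) (ha x)
    linarith
  have e3 : ∑ ω, pot U (B ∪ Z ω) ≤ Fintype.card Θ * (1 + δ / 2) * pot U B := by
    unfold pot
    rw [sum_comm, mul_sum]
    refine sum_le_sum fun x _ => le_trans ?_ (mul_le_mul_of_nonneg_right (e1 x) (by positivity))
    rw [sum_mul]
    refine sum_le_sum fun ω _ => ?_
    rw [← pow_add, union_inter_distrib_right, add_comm]
    exact pow_le_pow_right₀ one_le_two (card_union_le _ _)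
  rw [sum_sub_distrib, sum_const, card_univ, nsmul_eq_mul]
  unfold pot at e3 ⊢
  linarith

theorem step (ok : Ok Z U j s ε η) (hj : 1 ≤ j) (hs : w * j ≤ s) {a r m : ℕ} {p δ : ℝ}
    (hp : 0 ≤ p) (hZ : ∀ S : Finset Ω, pr (fun ω => S ⊆ Z ω) ≤ p ^ S.card)
    (ha : ∀ x, (U x).card ≤ a) (h1 : 4 * a * p ≤ δ) (h2 : 0 < δ) (h3 : δ ≤ 1)
    {S : Finset ℕ → Set (MF Ω)} (hS : ∀ c, MS w (Vr Ω) m (S c))
    (e1 : 2 ^ r * (m * (((s + 1) * (Fintype.card Ω + 1) ^ s : ℕ) * ε)) ≤ 1 / 4) (B : Finset Ω) :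
    ∃ (B' : Finset Ω) (Bd : X → Prop), pr Bd ≤ 2 ^ r * (m * η ^ (j + 1)) ∧
      (∀ x, ¬ Bd x → ∀ c ⊆ range r, ∀ f ∈ S c, Sw j (U x) B (B ∪ B') f) ∧
      pot U (B ∪ B') ≤ (1 + δ) * pot U B := by
  choose Bd d1 d3 using fun c => apx2 ok hj hs B (hS c)
  have a1 := pr_ex (range r).powerset _ fun c _ => d3 c
  have a2 := pr_ex (range r).powerset _ fun c _ => d1 c
  rw [card_powerset, card_range] at a1 a2
  push_cast at a1 a2 e1
  obtain ⟨ω, hω⟩ := exists_of_pr_lt (((pr_or _ _).trans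
    (add_le_add a1 (pot_step hp hZ ha h1 h2 h3 B))).trans_lt (by linarith))
  simp only [not_or, not_exists, not_and, not_not, mem_powerset, not_le] at hω
  exact ⟨Z ω, _, a2, fun x hx c hc => hω.1 c hc x fun h => hx ⟨c, mem_powerset.2 hc, h⟩,
    by linarith [hω.2]⟩

omit [Fintype Ω] in
theorem plant2 {r w₀ : ℕ} {δ γ : ℝ} {S : Finset ℕ → Set (MF Ω)} (h2 : 0 ≤ δ)
    (h : ∀ B : Finset Ω, ∃ (B' : Finset Ω) (Bd : X → Prop), pr Bd ≤ γ ∧
      (∀ x, ¬ Bd x → ∀ c ⊆ range r, ∀ f ∈ S c, Sw j (U x) B (B ∪ B') f) ∧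
      pot U (B ∪ B') ≤ (1 + δ) * pot U B)
    (e3 : 4 * 2 ^ (r + 1) * δ ≤ 1) (e4 : 2 ^ (r + 1) * γ < 1 / 2)
    (e5 : 2 * Fintype.card X ≤ 2 ^ w₀) :
    ∃ (x : X) (B : ℕ → Finset Ω), Monotone B ∧
      (∀ l ≤ 2 ^ (r + 1), ∀ x', (B l ∩ U x').card ≤ w₀) ∧ (∀ l ≤ 2 ^ (r + 1), B l ∩ U x = ∅) ∧
      ∀ l < 2 ^ (r + 1), ∀ c ⊆ range r, ∀ f ∈ S c, Sw j (U x) (B l) (B (l + 1)) f := by
  choose Z Bd d1 d2 d3 using h
  let B : ℕ → Finset Ω := fun l => Nat.rec ∅ (fun _ B => B ∪ Z B) l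
  have hB : Monotone B := monotone_nat_of_le_succ fun l => subset_union_left
  have a1 : ∀ l, pot U (B l) ≤ (1 + δ) ^ l * Fintype.card X := fun l => by
    induction l with
    | zero => simp [B, pot]
    | succ l ih =>
      rw [pow_succ', mul_assoc]
      exact (d3 _).trans (mul_le_mul_of_nonneg_left ih (by positivity))
  have hc : (0 : ℝ) < Fintype.card X := by exact_mod_cast Fintype.card_pos
  have a2 : pot U (B (2 ^ (r + 1))) ≤ 3 / 2 * Fintype.card X := by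
    have := pow_lin h2 (2 ^ (r + 1)) (by push_cast; linarith)
    push_cast at this
    exact (a1 _).trans (mul_le_mul_of_nonneg_right (by linarith) hc.le)
  have a3 := pr_ex (range (2 ^ (r + 1))) (fun l x => Bd (B l) x) fun l _ => d1 _
  have a4 := mark (F := fun x => 2 ^ (B (2 ^ (r + 1)) ∩ U x).card - 1) (u := 1 / 2)
    (fun x => sub_nonneg.2 (one_le_pow₀ one_le_two)) one_pos (by
      rw [sum_sub_distrib, sum_const, card_univ, nsmul_eq_mul]
      unfold pot at a2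
      linarith)
  rw [card_range] at a3
  push_cast at a3
  obtain ⟨x, hx⟩ := exists_of_pr_lt (((pr_or _ _).trans (add_le_add a3 a4)).trans_lt (by linarith))
  simp only [not_or, not_exists, not_and, mem_range, not_le] at hx
  refine ⟨x, B, hB, fun l hl x' => (card_le_card (inter_subset_inter_right (hB hl))).trans ?_,
    fun l hl => subset_empty.1 ((inter_subset_inter_right (hB hl)).trans (subset_empty.2 ?_)),
    fun l hl => d2 _ _ (hx.1 l hl)⟩
  · have b1 := single_le_sum (f := fun x => (2 : ℝ) ^ (B (2 ^ (r + 1)) ∩ U x).card)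
      (fun _ _ => by positivity) (mem_univ x')
    have b2 : (2 : ℝ) * Fintype.card X ≤ 2 ^ w₀ := by exact_mod_cast e5
    unfold pot at a2
    exact (pow_le_pow_iff_right₀ (one_lt_two (α := ℝ))).1 (by linarith)
  · rw [← card_eq_zero, ← Nat.lt_one_iff, ← pow_lt_pow_iff_right₀ (one_lt_two (α := ℝ))]
    linarith [hx.2]

theorem core2 {Pt : Type} [Fintype Pt] {gr : X → Pt → Ω} (hg : ∀ x, Function.Injective (gr x))
    {k : ℕ} (hU : ∀ x x', x ≠ x' → (univ.image (gr x) ∩ univ.image (gr x')).card ≤ k)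
    {Sip : (Pt → Prop) → Prop} {L : ℕ}
    (hL : ∀ R, (univ.filter R).card < L → ¬ Sip R) (ev : Prop)
    {n N k' K r S h t w₀ : ℕ} {p δ : ℝ} (e : Fin n → Ω) {G : List (Fn (Fin n))}
    {ψ : ℕ → Fn (Fin n)} {g : Fm N} (h1 : k' ≤ K) (h2 : G.length ≤ S) (h3 : Ckt r G)
    (h4 : ∀ i, ψ i ∈ G) (h5 : Wf S h (t + 1) g)
    (h6 : ∀ Y, (∃ x, Sip fun p => gr x p ∈ Y) ↔
      ∃ V : Finset (Fin N), V.card = k' ∧ g (fun i => ψ i (ind e Y)) V)
    (hw : 2 ^ h + 1 ≤ w) (ok : Ok Z (fun x => univ.image (gr x)) j s ε η)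
    (hj : 1 ≤ j) (hs : w * j ≤ s) {m : ℕ} (hm : S + (S + 2) ^ h * gam N S (2 ^ h) ≤ m)
    (hp : 0 ≤ p) (hZ : ∀ S : Finset Ω, pr (fun ω => S ⊆ Z ω) ≤ p ^ S.card) (hδ : 0 < δ)
    (e1 : 2 ^ r * (m * (((s + 1) * (Fintype.card Ω + 1) ^ s : ℕ) * ε)) ≤ 1 / 4)
    (e2 : 4 * Fintype.card Pt * p ≤ δ) (e3 : 4 * 2 ^ (r + 1) * δ ≤ 1)
    (e4 : 2 ^ (r + 1) * (2 ^ r * (m * η ^ (j + 1))) < 1 / 2)
    (e5 : 2 * Fintype.card X ≤ 2 ^ w₀) (e6 : w₀ + k < L) :
    ∃ Φ : Finset Pt, Φ.card ≤ r * j ∧ ∀ (β : Type) (P : (β → Bool) → Pt → Prop),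
      (∀ p, Jun 1 fun y => P y p) → (∀ y, ∀ p ∈ Φ, P y p ↔ ev) →
      NN (2 ^ (2 * K + 1) * (j * 1) * 2 ^ h) ((N + 1) ^ K * (S + 2) ^ 2 ^ h) (t + 1)
        fun y => Sip (P y) := by
  obtain ⟨lf, ν, l1, l2, l3⟩ := lift (w := w) (by have := Nat.one_le_two_pow (n := h); omega) e h3
  choose A a1 a2 using fun c : Finset ℕ => sim (fun Y i => lf (ψ i) c Y) hw h5 le_rfl
  have hS : ∀ c, MS w (Vr Ω) m ({F | ∃ g ∈ G, F = lf g c} ∪ A c) := fun c =>
    ((l1 c).add (a1 c) fun _ ⟨i, hi⟩ => ⟨ψ i, h4 i, hi⟩).le (by omega)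
  obtain ⟨x, B, b1, b2, b3, b4⟩ := plant2 hδ.le (step ok hj hs hp hZ
    (fun x => card_image_le.trans card_univ.le) e2 hδ (by
      have : (1 : ℝ) ≤ 2 ^ (r + 1) := one_le_pow₀ one_le_two
      nlinarith) hS e1) e3 e4 e5
  obtain ⟨c, c1, u, Φ, c2, c3, c4⟩ := search (j := j) (U := univ.image (gr x)) b1 ev
    (F := fun i c => lf (ν i) c) (T := fun i Y => ν i (ind e Y)) (fun i hi => (l2 i hi).2)
    (fun i hi c => (hS c).mo _ (Or.inl ⟨_, (l2 i hi).1, rfl⟩))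
    (fun i hi c hc l hl => b4 l (by omega) c hc _ (Or.inl ⟨_, (l2 i hi).1, rfl⟩)) r 0 rfl
  refine ⟨univ.filter fun p => gr x p ∈ Φ, le_trans (card_le_card_of_injOn (gr x)
    (fun p hp => by simpa using hp) (hg x).injOn) c3, fun β P p1 p2 => ?_⟩
  let Y : (β → Bool) → Finset Ω := fun y => (univ.filter (P y)).image (gr x)
  have y1 : ∀ y p, gr x p ∈ Y y ↔ P y p := fun y p => by simp [Y, (hg x).eq_iff]
  have y2 : ∀ y, Y y ⊆ univ.image (gr x) := fun y => image_subset_image (filter_subset _ _)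
  have y3 : ∀ p, Jun 1 fun y => p ∈ Y y := fun p => by
    by_cases hp : p ∈ univ.image (gr x)
    · obtain ⟨p, -, rfl⟩ := mem_image.1 hp
      exact (p1 p).congr fun y => y1 y p
    · exact (Jun.const 1 False).congr fun y => iff_of_false (fun h => hp (y2 y h)) id
  have y4 : ∀ l, u ≤ l → l < u + 2 → ∀ y, Sip (P y) ↔ ∃ V : Finset (Fin N), V.card = k' ∧
      g (fun i => lf (ψ i) c (B l ∪ Y y)) V := fun l d1 d2 y => by
    have d3 := l3 c _ (c4 l d1 d2 _ (y2 y) fun p hp hp' => by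
      obtain ⟨p, -, rfl⟩ := mem_image.1 hp'
      exact (y1 y p).trans (p2 y p (by simpa using hp)))
    rw [funext fun i => propext (d3 _ (h4 i)), ← h6]
    have d4 : (fun p => gr x p ∈ B l ∪ Y y) = P y := funext fun p => propext (by
      rw [mem_union, y1, or_iff_right]
      intro d5
      have := mem_inter.2 ⟨d5, mem_image_of_mem (gr x) (mem_univ p)⟩
      rw [b3 l (by omega)] at this
      exact notMem_empty _ this)
    refine ⟨fun h => ⟨x, d4 ▸ h⟩, fun ⟨x', h⟩ => ?_⟩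
    by_cases hx : x' = x
    · rwa [hx, d4] at h
    refine absurd h (hL _ (lt_of_le_of_lt ?_ e6))
    refine le_trans (card_le_card_of_injOn (gr x') (t := B l ∩ univ.image (gr x') ∪
      univ.image (gr x') ∩ univ.image (gr x)) (fun p hp => ?_) (hg x').injOn)
      ((card_union_le _ _).trans (add_le_add (b2 l (by omega) x') (hU _ _ hx)))
    have d5 := mem_image_of_mem (gr x') (mem_univ p)
    rcases (by simpa using hp : gr x' p ∈ B l ∨ gr x' p ∈ Y y) with d6 | d6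
    · exact mem_union_left _ (mem_inter.2 ⟨d6, d5⟩)
    · exact mem_union_right _ (mem_inter.2 ⟨d5, y2 y d6⟩)
  have y5 : ∀ f ∈ A c, Sj (j * 1) (fun y => f (B u ∪ Y y)) fun y => f (B (u + 1) ∪ Y y) := by
    intro f hf
    obtain ⟨D, d1, d2⟩ := b4 u (by omega) c c1 f (Or.inr hf)
    refine ⟨fun y => f (B (u + 1) ∪ Y y ∩ D), (Jun.of_det D (fun p _ => y3 p)
      fun y y' d3 => ?_).mono (Nat.mul_le_mul_right _ d1), fun y => ⟨d2 _ (y2 y),
        (hS c).mo f (Or.inr hf) _ _ (union_subset_union subset_rfl inter_subset_left)⟩⟩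
    refine (hS c).mo f (Or.inr hf) _ _ (union_subset_union subset_rfl fun p hp => ?_)
    exact mem_inter.2 ⟨(d3 p (mem_inter.1 hp).2).1 (mem_inter.1 hp).1, (mem_inter.1 hp).2⟩
  choose! g' g1 g2 using fun V (hV : V ∈ powersetCard k' (univ : Finset (Fin N))) =>
    (a2 c β _ _ _ K (S + 2) (by omega) (by omega) y5 V ((mem_powersetCard.1 hV).2.trans_le h1)
      t le_rfl).1
  refine (NN.ex _ (Nat.one_le_pow _ _ N.succ_pos) ?_ g1).congr fun y => ⟨fun h => ?_,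
    fun ⟨V, v1, v2⟩ => (y4 (u + 1) (by omega) (by omega) y).2
      ⟨V, (mem_powersetCard.1 v1).2, (g2 V v1 y).2 v2⟩⟩
  · rw [card_powersetCard, card_univ, Fintype.card_fin]
    exact (Nat.choose_le_pow _ _).trans ((Nat.pow_le_pow_left N.le_succ _).trans
      (Nat.pow_le_pow_right N.succ_pos h1))
  · obtain ⟨V, v1, v2⟩ := (y4 u le_rfl (by omega) y).1 h
    have := mem_powersetCard.2 ⟨subset_univ V, v1⟩
    exact ⟨V, this, (g2 V this y).1 v2⟩

end Pool.Agent.P.MP_d1c5a4_lc.NS
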