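import Pool.Agent.P.MP_d1c5a4_lc.NS.Core2

/-! The separation of the levels with nearly `log n` negations. -/

namespace Pool.Agent.P.MP_d1c5a4_lc.NS

open Finset Classical Filter NL

theorem pos_le2 {j a : ℕ} (ha : 4 * j + 4 ≤ a) (k : ℕ) {L : ℕ} (hL : 2 ≤ L) :
    Fintype.card (Pos j L k (L ^ a)) + 1 ≤ (L ^ a) ^ (k + 1) := by
  have h1 := pt_le j hL
  have h2 : L ^ (4 * j + 3) < L ^ a := Nat.pow_lt_pow_right hL (by omega)
  have h3 : 0 < (L ^ a) ^ k := by positivity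
  rw [Fintype.card_prod, pow_succ' _ k, show Fintype.card (Fin k → Fin (L ^ a)) =
    (L ^ a) ^ k by simp]
  exact Nat.mul_lt_mul_of_pos_right (h1.trans_lt h2) h3

theorem pos_mono2 (j a k : ℕ) : StrictMono fun L => Fintype.card (Pos j L k (L ^ a)) := by
  intro L L' h
  have h0 : 0 < L' := by omega
  simp only [card_pos']
  refine lt_of_le_of_lt (b := (L' * L' ^ 3) ^ j * (L * (L + 1)) * (L' ^ a) ^ k) (by gcongr) ?_
  gcongr

theorem ev_pow (K C : ℕ) : ∀ᶠ L : ℕ in atTop, K * L ^ C ≤ 2 ^ L := by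
  filter_upwards [ev_geom (ρ := 1 / 2) (by norm_num) (by norm_num) K C] with L h
  rw [one_div, inv_pow, ← div_eq_mul_inv, div_le_one (by positivity)] at h
  exact_mod_cast h

theorem lb2 (j h c A : ℕ) {a k g b d : ℕ} (ha : 4 * j + 4 ≤ a) (p1 : a * k = g + 1 + b)
    (p2 : (2 ^ h + 2) * d ≤ k)
    (p3 : a * (2 * k + ((k + 1) * c + 1) * (h + 5 * 2 ^ h + 3)) + 1 ≤ b * (d + 1)) (p4 : 1 ≤ d) :
    ∀ᶠ L : ℕ in atTop, ∀ (f₀ : Fin j → Ix L) (ev : (Fin k → Fin (L ^ a)) → Pt j L → Fin (L ^ a)),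
      (∀ x x', x ≠ x' → (univ.filter fun y => ev x y = ev x' y).card < k) →
      ∀ (n : ℕ) (e : Fin n ≃ Pos j L k (L ^ a)) (r : ℕ), 2 ^ r * L ^ (4 * j + 5) ≤ L ^ g →
        ¬ Rp (j + 1) h (A * (n + 1) ^ c) A r (Hd f₀ ev e) := by
  obtain ⟨u, hu⟩ : ∃ u, u = (k + 1) * c + 1 := ⟨_, rfl⟩
  obtain ⟨v, hv⟩ : ∃ v, v = h + 5 * 2 ^ h + 3 := ⟨_, rfl⟩
  obtain ⟨s, hs⟩ : ∃ s, s = (2 ^ h + 1) * d := ⟨_, rfl⟩
  rw [← hu, ← hv] at p3
  have s0 : 0 < s := hs ▸ Nat.mul_pos (by positivity) p4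
  have s2 : d + s ≤ k := by rw [hs]; linarith
  filter_upwards [sip_hard j (2 ^ (2 * A + 1) * (d * 1) * 2 ^ h) (a * u * (A + 2 ^ h)),
    ev_pow (4 * (s + 1)) (g + a * (u * v) + a * (k + 1) * s), ev_pow (2 ^ (k + 2)) (a * k * k),
    ev_pow 1 (g * d), eventually_ge_atTop (A + k + 32), eventually_ge_atTop (2 ^ d * (2 * s))]
    with L l1 l2 l5 l6 l3 l4 f₀ ev hev n e r hr ⟨N, k', G, ψ, g', g1, g2, g3, g4, g5, g6, g7⟩
  have hn : Fintype.card (Pos j L k (L ^ a)) = n := by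
    rw [← Fintype.card_congr e, Fintype.card_fin]
  have L0 : 0 < L := by omega
  have n1 := pos_le2 ha k (L := L) (by omega)
  have n2 := pt_le j (L := L) (by omega)
  have hA : Fintype.card (Fin k → Fin (L ^ a)) = L ^ (a * k) := by simp [pow_mul]
  have hX : Fintype.card (Fin k → Fin k → Fin (L ^ a)) = (L ^ (a * k)) ^ k := by
    rw [Fintype.card_fun, hA, Fintype.card_fin]
  rw [hn] at n1
  have q1 : L ≤ L ^ a := Nat.le_self_pow (by omega) _
  have : Nonempty (Fin (L ^ a)) := ⟨⟨0, by positivity⟩⟩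
  have s1 : A * (n + 1) ^ c + 2 ≤ (L ^ a) ^ u := by
    have b1 := Nat.pow_le_pow_left n1 c
    have b2 : 1 ≤ ((L ^ a) ^ (k + 1)) ^ c := Nat.one_le_pow _ _ (by positivity)
    have b3 := Nat.mul_le_mul_left A b1
    have b5 := Nat.mul_le_mul_right (((L ^ a) ^ (k + 1)) ^ c) (show A + 2 ≤ L ^ a by omega)
    rw [hu, pow_succ', pow_mul]
    nlinarith
  obtain ⟨Q, hQ⟩ : ∃ Q, L ^ g = Q + 1 := ⟨_, (Nat.succ_pred_eq_of_pos (by positivity)).symm⟩
  have hQ' : (Q + 1 : ℝ) = L ^ g := by exact_mod_cast hQ.symm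
  have L1 : (32 : ℝ) ≤ L := by exact_mod_cast (show 32 ≤ L by omega)
  have r2 : 2 ^ r ≤ L ^ g := (Nat.le_mul_of_pos_right _ (by positivity)).trans hr
  have hv' : ∀ x x' : Fin k → Fin k → Fin (L ^ a), x ≠ x' →
      (univ.filter fun p => (fun i => ev (x i) p) = fun i => ev (x' i) p).card < k :=
    fun x x' hx => by
      obtain ⟨i, hi⟩ := Function.ne_iff.1 hx
      exact lt_of_le_of_lt (card_le_card fun p hp => mem_filter.2 ⟨mem_univ _,
        congrFun (mem_filter.1 hp).2 i⟩) (hev _ _ hi)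
  letI : Fintype (Fin L → Pos j L k (L ^ a) → Fin (Q + 1)) :=
    @Pi.instFintype _ _ _ _ fun _ => Pi.instFintype
  have ok : Ok (fun ω : Fin L → Pos j L k (L ^ a) → Fin (Q + 1) => zz ω)
      (fun x => univ.image (gr ev x)) d s ((1 / 2) ^ L) (1 / (L : ℝ) ^ b) := by
    refine ⟨by positivity, by positivity, (div_le_one (by positivity)).2
      (one_le_pow₀ (by linarith)), 2 * s * (Q + 1), 1 / (L : ℝ) ^ (g + 1), by positivity,
      by positivity, ?_, sp_zz (κ := 2 * s * (Q + 1)) L (by positivity) (by gcongr; linarith),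
      fun S hS => ?_⟩
    · rw [hQ', pow_succ, mul_one_div, ← mul_div_assoc, div_le_one (by positivity), ← mul_assoc,
        mul_comm (_ ^ g)]
      gcongr
      exact_mod_cast l4
    · refine (unif (fun (x : Fin k → Fin k → Fin (L ^ a)) p i => ev (x i) p) hv' ?_
        (by rw [hX, hA]) S (hS.trans s2)).trans_eq ?_
      · rw [card_pt]
        exact le_trans (by nlinarith) (Nat.le_mul_of_pos_left _ (by positivity))
      · rw [hA, p1, pow_add, one_div_mul_one_div]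
        push_cast
        rfl
  refine (core2 (Sip := Sip f₀) (L := L) (gr := gr ev) (k := k) (w := 2 ^ h + 1)
    (w₀ := L - k - 1) (δ := 1 / (4 * 2 ^ (r + 1))) (m := (L ^ a) ^ (u * v))
    (p := L * (1 / (Q + 1 : ℝ)))
    (fun x _ _ h => (Prod.ext_iff.1 h).1) (fun x x' hx => by
      refine le_trans ((card_le_card (t := (univ.filter fun p => (fun i => ev (x i) p) =
        fun i => ev (x' i) p).image (gr ev x)) fun p hp => ?_).trans card_image_le)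
        (hv' _ _ hx).le
      obtain ⟨y, -, rfl⟩ := mem_image.1 (mem_inter.1 hp).1
      obtain ⟨y', -, b⟩ := mem_image.1 (mem_inter.1 hp).2
      obtain ⟨rfl, b⟩ := Prod.ext_iff.1 b
      exact mem_image_of_mem _ (mem_filter.2 ⟨mem_univ _, b.symm⟩))
    (fun R hR => sip_few f₀ R (by convert hR)) (Even j) e g2 g3 g4 g5 g6
    (fun Y => Iff.trans (by simp [Hd, ind]) (g7 (ind e Y))) le_rfl ok p4 hs.ge
    ((gam_le g1).trans (by rw [pow_mul, hv]; exact Nat.pow_le_pow_left s1 _))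
    (by positivity) (pr_zz L) (by positivity) ?_ ?_ (mul_one_div_cancel (by positivity)).le ?_ ?_
    (by omega)).elim fun Φ ⟨f1, f2⟩ => ?_
  · have b1 : 4 * (2 ^ r * ((L ^ a) ^ (u * v) * ((s + 1) * (n + 1) ^ s))) ≤ 2 ^ L := by
      refine le_trans (b := 4 * (L ^ g * ((L ^ a) ^ (u * v) *
        ((s + 1) * ((L ^ a) ^ (k + 1)) ^ s)))) (by gcongr) (le_trans (le_of_eq ?_) l2)
      rw [pow_add, pow_add, pow_mul, pow_mul L (a * (k + 1)), pow_mul L a (k + 1)]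
      ring
    rw [hn, ← mul_assoc _ _ ((1 / 2 : ℝ) ^ L), ← mul_assoc _ _ ((1 / 2 : ℝ) ^ L), one_div, inv_pow,
      ← div_eq_mul_inv, div_le_div_iff₀ (by positivity) (by positivity), one_mul, mul_comm _ 4]
    exact_mod_cast b1
  · have b1 : 4 * Fintype.card (Pt j L) * L * (4 * 2 ^ (r + 1)) ≤ L ^ g := by
      refine le_trans (b := 4 * L ^ (4 * j + 3) * L * (4 * 2 ^ (r + 1))) (by gcongr)
        (le_trans ?_ hr)
      calc _ = 2 ^ r * (L ^ (4 * j + 4) * 32) := by ring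
        _ ≤ 2 ^ r * (L ^ (4 * j + 4) * L) := by gcongr; omega
        _ = _ := by ring
    rw [hQ', mul_one_div, ← mul_div_assoc, div_le_div_iff₀ (by positivity) (by positivity), one_mul]
    exact_mod_cast b1
  · have r3 : 2 ^ r ≤ L ^ (a * k) := r2.trans (Nat.pow_le_pow_right L0 (by omega))
    have b1 : 2 ^ (r + 1) * (2 ^ r * (L ^ a) ^ (u * v)) * 2 < (L ^ b) ^ (d + 1) :=
      calc _ = 2 ^ r * 2 ^ r * L ^ (a * (u * v)) * 4 := by rw [pow_mul L]; ring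
        _ ≤ L ^ (a * k) * L ^ (a * k) * L ^ (a * (u * v)) * 4 := by gcongr
        _ < L ^ (a * k) * L ^ (a * k) * L ^ (a * (u * v)) * L := by gcongr; omega
        _ = L ^ (a * (2 * k + u * v) + 1) := by ring
        _ ≤ _ := by rw [← pow_mul]; exact Nat.pow_le_pow_right L0 p3
    rw [div_pow, one_pow, mul_one_div, ← mul_div_assoc, ← mul_div_assoc,
      div_lt_div_iff₀ (by positivity) (by positivity), one_mul]
    exact_mod_cast b1
  · rw [hX, ← pow_mul]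
    refine Nat.le_of_mul_le_mul_left (c := 2 ^ (k + 1)) ?_ (by positivity)
    rw [← pow_add, show k + 1 + (L - k - 1) = L by omega, ← mul_assoc, ← pow_succ]
    exact l5
  · refine l1 f₀ Φ (f1.trans ((Nat.pow_le_pow_iff_right one_lt_two).1 ?_))
      fun β P p1 p2 => (f2 β P p1 p2).mono le_rfl ?_
    · rw [one_mul, pow_mul] at l6
      rw [pow_mul]
      exact (Nat.pow_le_pow_left r2 _).trans l6
    · rw [pow_mul, pow_mul, pow_add]
      exact Nat.mul_le_mul (Nat.pow_le_pow_left (by omega) _) (Nat.pow_le_pow_left s1 _)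

theorem few2 (A : ℝ) (e z : ℕ) : ∀ᶠ L : ℕ in atTop, ∀ n r : ℕ, n + 1 ≤ L ^ (z * (e + 1)) →
    (r : ℝ) ≤ e / (e + 1) * Real.logb 2 (n + 1) + A → 2 ^ r ≤ L ^ (z * e + 1) := by
  filter_upwards [eventually_ge_atTop (2 ^ ⌈A⌉₊)] with L hL n r h1 h2
  have L0 : (0 : ℝ) < L := by exact_mod_cast lt_of_lt_of_le (by positivity) hL
  have a1 : A ≤ Real.logb 2 L := (Nat.le_ceil A).trans ((Real.le_logb_iff_rpow_le one_lt_two L0).2
    (by rw [Real.rpow_natCast]; exact_mod_cast hL))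
  have a2 : Real.logb 2 (n + 1) ≤ z * (e + 1) * Real.logb 2 L := by
    have := Real.logb_le_logb_of_le one_lt_two (by positivity)
      (by exact_mod_cast h1 : (n + 1 : ℝ) ≤ L ^ (z * (e + 1)))
    rw [Real.logb_pow] at this
    exact_mod_cast this
  have a3 := mul_le_mul_of_nonneg_left a2 (by positivity : (0 : ℝ) ≤ e / (e + 1))
  have a4 : (e : ℝ) / (e + 1) * (z * (e + 1) * Real.logb 2 L) = z * e * Real.logb 2 L := by
    field_simp
  have a5 : (r : ℝ) ≤ Real.logb 2 (L ^ (z * e + 1)) := by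
    rw [Real.logb_pow]
    push_cast
    linarith
  rw [Real.le_logb_iff_rpow_le one_lt_two (by positivity), Real.rpow_natCast] at a5
  exact_mod_cast a5

theorem sep2 {R : ℕ → ℕ → ℕ} (hR : ∃ᶠ κ in atTop, ∃ θ A : ℝ, θ < 1 ∧
    ∀ n, (R κ n : ℝ) ≤ θ * Real.logb 2 (n + 1) + A) (j : ℕ) :
    ∃ 𝓛 ∈ WN (fun _ _ => 0) (j + 2), 𝓛 ∉ WN R (j + 1) := by
  have he : ∀ κ, ∃ e : ℕ, (∃ θ A : ℝ, θ < 1 ∧ ∀ n, (R κ n : ℝ) ≤ θ * Real.logb 2 (n + 1) + A) →
      ∃ A : ℝ, ∀ n, (R κ n : ℝ) ≤ e / (e + 1) * Real.logb 2 (n + 1) + A := fun κ => by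
    by_cases h : ∃ θ A : ℝ, θ < 1 ∧ ∀ n, (R κ n : ℝ) ≤ θ * Real.logb 2 (n + 1) + A
    · obtain ⟨θ, A, h1, h2⟩ := h
      obtain ⟨e, he⟩ := exists_nat_one_div_lt (sub_pos.2 h1)
      refine ⟨e, fun _ => ⟨A, fun n => (h2 n).trans (add_le_add_left (mul_le_mul_of_nonneg_right
        ?_ (Real.logb_nonneg one_lt_two (by simp))) _)⟩⟩
      have : (e : ℝ) / (e + 1) = 1 - 1 / (e + 1) := by field_simp; ring
      linarith
    · exact ⟨0, fun h' => absurd h' h⟩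
  choose e he using he
  obtain ⟨K, hK⟩ : ∃ K : ℕ → ℕ, ∀ κ, K κ + 1 = (2 * κ ^ 2 + 1) * (e κ + 1) :=
    ⟨fun κ => (2 * κ ^ 2 + 1) * (e κ + 1) - 1, fun κ => Nat.sub_add_cancel (Nat.mul_pos
      (Nat.succ_pos _) (Nat.succ_pos _))⟩
  obtain ⟨a, ha⟩ : ∃ a, a = 4 * j + 4 := ⟨_, rfl⟩
  have : ∀ k n, ∃ F : Fn (Fin n), Rp (j + 2) (j + 4) ((k + 1) * (n + 1) ^ 1) (k + 1) 0 F ∧
      ∀ L : ℕ, L.Prime → Fintype.card (Pos j L k (L ^ a)) = n → ∃ (f₀ : Fin j → Ix L)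
        (ev : (Fin k → Fin (L ^ a)) → Pt j L → Fin (L ^ a)) (e : Fin n ≃ Pos j L k (L ^ a)),
        (∀ x x', x ≠ x' → (univ.filter fun y => ev x y = ev x' y).card < k) ∧
          F = Hd f₀ ev e := fun k n => by
    by_cases h : ∃ L : ℕ, L.Prime ∧ Fintype.card (Pos j L k (L ^ a)) = n
    · obtain ⟨L, h1, h2⟩ := h
      have h0 := h1.pos
      obtain ⟨ev, hev⟩ := design (k := k) (a := a) h1 (by omega) (Pt j L)
        ((pt_le j h1.two_le).trans (Nat.pow_le_pow_right h0 (by omega)))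
      refine ⟨_, rp_hd h0 (by positivity) (fun _ => (⟨0, h0⟩, ⟨0, by positivity⟩)) ev
        (Fintype.equivFinOfCardEq h2).symm, fun L' _ h3 => ?_⟩
      obtain rfl : L = L' := (pos_mono2 j a k).injective (h2.trans h3.symm)
      exact ⟨_, ev, _, hev, rfl⟩
    · exact ⟨_, rp_false (Nat.mul_pos k.succ_pos (by positivity)), fun L a b => absurd ⟨L, a, b⟩ h⟩
  choose F h1 h2 using this
  have hm : ∀ k n (x : Fin n → Bool), (List.ofFn x, k) ∈ {p : List Bool × ℕ |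
      ∃ (n : ℕ) (x : Fin n → Bool), p.1 = List.ofFn x ∧ F (K p.2) n x} ↔ F (K k) n x :=
    fun k n x => by
      refine ⟨fun ⟨n', x', a, b⟩ => ?_, fun a => ⟨n, x, rfl, a⟩⟩
      cases List.ofFn_inj'.1 a
      exact b
  refine ⟨{p | ∃ (n : ℕ) (x : Fin n → Bool), p.1 = List.ofFn x ∧ F (K p.2) n x},
    ⟨fun k => K k + 1, j + 4, 1, fun k n => ?_⟩, fun ⟨f, h, c, b⟩ => ?_⟩
  · simp only [hm]
    obtain ⟨N, k', G, ψ, g, b1, b2, b3⟩ := h1 (K k) n
    exact ⟨N, k', 0, G, ψ, g, b1, b2, le_rfl, b3⟩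
  · simp only [hm] at b
    obtain ⟨κ, k0, k1, k2⟩ := (hR.and_eventually ((eventually_ge_atTop
      ((c + 1) * (h + 5 * 2 ^ h + 3) + 3)).and (eventually_ge_atTop (2 ^ h + 2)))).exists
    obtain ⟨A, hA⟩ := he κ k0
    have k3 := hK κ
    obtain ⟨y, hy⟩ : ∃ y, 2 * κ ^ 2 + 1 = y + 4 := ⟨2 * κ ^ 2 - 3, by
      have : 9 ≤ κ ^ 2 := by nlinarith [Nat.zero_le ((c + 1) * (h + 5 * 2 ^ h + 3))]
      omega⟩
    have y1 : 4 ≤ y := by nlinarith [Nat.zero_le ((c + 1) * (h + 5 * 2 ^ h + 3))]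
    obtain ⟨a', ha'⟩ : ∃ a', a = a' + 1 := ⟨4 * j + 3, ha⟩
    generalize e κ = ε at *
    obtain ⟨M, hM⟩ := eventually_atTop.1 ((lb2 j h c (f κ) (a := a) (k := K κ)
      (g := a * ((y + 4) * ε + 2)) (b := a * y + a') (d := 2 * (ε + 1) * κ) ha.ge (by
        rw [show K κ = (y + 4) * ε + y + 3 by nlinarith, ha']
        ring) (by nlinarith [Nat.mul_le_mul_right (2 * (ε + 1) * κ) k2]) (by
        generalize h + 5 * 2 ^ h + 3 = v at *
        have c1 : 2 * K κ + ((K κ + 1) * c + 1) * v + 1 ≤ (K κ + 1) * κ :=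
          le_trans (by nlinarith [Nat.zero_le (K κ * v)]) (Nat.mul_le_mul_left _ k1)
        have c2 : (K κ + 1) * κ ≤ y * (2 * (ε + 1) * κ) := by
          rw [k3, hy, ← mul_assoc, ← mul_assoc]
          gcongr
          omega
        have c3 := Nat.mul_le_mul_left a (c1.trans c2)
        nlinarith [Nat.zero_le (a' * (2 * (ε + 1) * κ)), Nat.zero_le (a * y)])
      (Nat.mul_pos (by omega) (by omega))).and ((few2 A ε (a * (y + 4))).and
        (eventually_ge_atTop 1)))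
    obtain ⟨L, l1, l2⟩ := Nat.exists_infinite_primes M
    obtain ⟨f₀, ev, e, c1, c2⟩ := h2 (K κ) _ L l2 rfl
    obtain ⟨N, k', r, G, ψ, g, b1, b2, b3, b4⟩ := b κ _
    refine (hM L l1).1 f₀ ev c1 _ e r ((Nat.mul_le_mul_right _ ((hM L l1).2.1 _ r ?_
      (le_trans (by exact_mod_cast b3) (hA _)))).trans ?_) ⟨N, k', G, ψ, g, b1, b2, c2 ▸ b4⟩
    · rw [mul_assoc, ← hy, ← k3, pow_mul]
      exact pos_le2 ha.ge _ l2.two_le
    · rw [← pow_add]
      exact Nat.pow_le_pow_right l2.pos (by nlinarith)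

theorem wn_zero (R : ℕ → ℕ → ℕ) (t : ℕ) : WN (fun _ _ => 0) t ⊆ WN R t := fun _ ⟨f, h, c, b⟩ =>
  ⟨f, h, c, fun k n =>
    let ⟨N, k', r, G, ψ, g, b1, b2, b3, b4⟩ := b k n
    ⟨N, k', r, G, ψ, g, b1, b2, b3.trans (Nat.zero_le _), b4⟩⟩

end Pool.Agent.P.MP_d1c5a4_lc.NS
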