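import Pool.Agent.P.MP_d1c5a4_lc.NL.Main

/-! A spread lemma for sets of bounded size, by the second moment. -/

namespace Pool.Agent.P.MP_d1c5a4_lc.NS

open Finset Classical NL

theorem pow_lin {x : ℝ} (hx : 0 ≤ x) (d : ℕ) (h : 2 * d * x ≤ 1) :
    (1 + x) ^ d ≤ 1 + 2 * d * x := by
  induction d with
  | zero => simp
  | succ d ih =>
    push_cast at h ⊢
    have h1 : 2 * d * x ≤ 1 := by nlinarith
    rw [pow_succ]
    nlinarith [mul_le_mul_of_nonneg_right (ih h1) (by linarith : 0 ≤ 1 + x),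
      mul_le_mul_of_nonneg_right h1 hx]

theorem sum_pw {α : Type} (T : Finset α) (x : ℝ) :
    ∑ S ∈ T.powerset, x ^ S.card = (1 + x) ^ T.card := by
  rw [← prod_const, prod_one_add]
  simp only [prod_const]

section
variable {Θ : Type} [Fintype Θ]

theorem sum_ind (E : Θ → Prop) [DecidablePred E] (c : ℝ) :
    ∑ ω, (if E ω then c else 0) = Fintype.card Θ * (c * pr E) := by
  rcases isEmpty_or_nonempty Θ with h | h
  · simp
  have hc : (Fintype.card Θ : ℝ) ≠ 0 := by exact_mod_cast Fintype.card_ne_zero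
  unfold pr
  rw [← sum_filter, sum_const, nsmul_eq_mul, mul_left_comm, mul_div_cancel₀ _ hc, mul_comm]
  congr

theorem pr_ex' {ι : Type} (s : Finset ι) (E : ι → Θ → Prop) :
    pr (fun ω => ∃ i ∈ s, E i ω) ≤ ∑ i ∈ s, pr (E i) := by
  induction s using Finset.induction_on with
  | empty => rw [pr_false (by simp)]; simp
  | insert i s hi ih =>
    rw [sum_insert hi]
    refine (pr_le_or (F := E i) (G := fun ω => ∃ i ∈ s, E i ω) (by simp)).trans ?_
    linarith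

/-- Markov's inequality. -/
theorem mark [Nonempty Θ] {F : Θ → ℝ} (hF : ∀ ω, 0 ≤ F ω) {t : ℝ} (ht : 0 < t) {u : ℝ}
    (h : ∑ ω, F ω ≤ Fintype.card Θ * (t * u)) : pr (fun ω => t ≤ F ω) ≤ u := by
  have hc : (0 : ℝ) < Fintype.card Θ := by exact_mod_cast Fintype.card_pos
  refine le_of_mul_le_mul_left (le_of_mul_le_mul_left (le_trans ?_ h) hc) ht
  rw [← sum_ind]
  refine sum_le_sum fun ω _ => ?_
  split_ifs with h1
  exacts [h1, hF ω]

end

variable {Ω : Type} [Fintype Ω] [DecidableEq Ω] {Q : ℕ}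

theorem spread {ι : Type} (I : Finset ι) (w : ι → ℝ) (T : ι → Finset Ω) {d : ℕ} {κ : ℝ}
    (hκ : 0 < κ) (hk : 2 * d * Q ≤ κ) (hw : ∀ i ∈ I, 0 ≤ w i) (hW : 0 < ∑ i ∈ I, w i)
    (hT : ∀ i ∈ I, (T i).card ≤ d)
    (hs : ∀ S : Finset Ω, (∑ i ∈ I with S ⊆ T i, w i) * κ ^ S.card ≤ ∑ i ∈ I, w i) :
    pr (fun ω : Ω → Fin (Q + 1) => ¬ ∃ i ∈ I, T i ⊆ nz ω) ≤ 1 / 2 := by
  obtain ⟨W, hW'⟩ : ∃ W, W = ∑ i ∈ I, w i := ⟨_, rfl⟩
  rw [← hW'] at hW hs
  have hc : (0 : ℝ) < Fintype.card (Ω → Fin (Q + 1)) := by exact_mod_cast Fintype.card_pos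
  have hq : (0 : ℝ) < Q + 1 := by positivity
  let N : (Ω → Fin (Q + 1)) → ℝ := fun ω =>
    ∑ i ∈ I, if T i ⊆ nz ω then w i * (Q + 1) ^ (T i).card else 0
  have h1 : ∑ ω, N ω = Fintype.card (Ω → Fin (Q + 1)) * W := by
    rw [sum_comm, hW', mul_sum]
    refine sum_congr rfl fun i _ => ?_
    rw [sum_ind, pr_sub, mul_assoc, ← mul_pow, mul_one_div_cancel hq.ne', one_pow, mul_one]
  have h2 : ∀ i ∈ I, ∑ i' ∈ I, w i' * (Q + 1 : ℝ) ^ (T i ∩ T i').card ≤ 2 * W := fun i hi => by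
    have e1 : ∀ i', w i' * (Q + 1 : ℝ) ^ (T i ∩ T i').card =
        ∑ S ∈ (T i).powerset, if S ⊆ T i' then w i' * Q ^ S.card else 0 := fun i' => by
      rw [add_comm, ← sum_pw, mul_sum, ← sum_filter]
      refine sum_congr ?_ fun _ _ => rfl
      ext S
      simp only [mem_powerset, mem_filter, subset_inter_iff]
    rw [sum_congr rfl fun i' _ => e1 i', sum_comm]
    refine le_trans (sum_le_sum (g := fun S => W * (Q / κ) ^ S.card) fun S _ => ?_) ?_
    · rw [← sum_filter, ← sum_mul, div_pow, ← mul_div_assoc, le_div_iff₀ (by positivity),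
        mul_right_comm]
      exact mul_le_mul_of_nonneg_right (hs S) (by positivity)
    · have e2 : 2 * d * (Q / κ) ≤ 1 := by rw [← mul_div_assoc, div_le_one hκ]; exact hk
      have e3 := pow_lin (by positivity) d e2
      have e4 : (1 + Q / κ) ^ (T i).card ≤ (1 + Q / κ) ^ d :=
        pow_le_pow_right₀ (le_add_of_nonneg_right (by positivity)) (hT i hi)
      rw [← mul_sum, sum_pw, mul_comm]
      exact mul_le_mul_of_nonneg_right (by linarith) hW.le
  have h3 : ∑ ω, N ω * N ω ≤ Fintype.card (Ω → Fin (Q + 1)) * (2 * W * W) := by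
    have e1 : ∀ ω, N ω * N ω = ∑ i ∈ I, ∑ i' ∈ I, if T i ∪ T i' ⊆ nz ω then
        w i * (Q + 1) ^ (T i).card * (w i' * (Q + 1) ^ (T i').card) else 0 := fun ω => by
      rw [sum_mul_sum]
      refine sum_congr rfl fun i _ => sum_congr rfl fun i' _ => ?_
      simp only [union_subset_iff]
      by_cases a : T i ⊆ nz ω <;> by_cases b : T i' ⊆ nz ω <;> simp [a, b]
    rw [sum_congr rfl fun ω _ => e1 ω, sum_comm]
    nth_rewrite 2 [hW']
    rw [mul_sum, mul_sum]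
    refine sum_le_sum fun i hi => ?_
    rw [sum_comm]
    refine le_trans (le_of_eq ?_) (mul_le_mul_of_nonneg_left
      (mul_le_mul_of_nonneg_right (h2 i hi) (hw i hi)) hc.le)
    rw [sum_mul, mul_sum]
    refine sum_congr rfl fun i' _ => ?_
    rw [sum_ind, pr_sub, mul_mul_mul_comm, ← pow_add, ← card_union_add_card_inter, pow_add,
      one_div, inv_pow]
    field_simp
  refine le_of_mul_le_mul_left ?_ hc
  rw [← one_mul (pr _), ← sum_ind]
  refine le_trans (sum_le_sum (g := fun ω => 1 - W⁻¹ * N ω + (4 * W * W)⁻¹ * (N ω * N ω))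
    fun ω _ => ?_) ?_
  · split_ifs with a
    · have : 1 - W⁻¹ * N ω + (4 * W * W)⁻¹ * (N ω * N ω) = (1 - N ω / (2 * W)) ^ 2 := by
        field_simp
        ring
      rw [this]
      positivity
    · have : N ω = 0 := sum_eq_zero fun i hi => if_neg fun b => a ⟨i, hi, b⟩
      simp [this]
  · rw [sum_add_distrib, sum_sub_distrib, ← mul_sum, ← mul_sum, h1, sum_const, card_univ,
      nsmul_eq_mul]
    have := mul_le_mul_of_nonneg_left h3 (by positivity : 0 ≤ (4 * W * W)⁻¹)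
    refine (add_le_add_right this _).trans (le_of_eq ?_)
    field_simp
    ring

/-- The union of several independent random sets. -/
def zz {ρ : ℕ} (ω : Fin ρ → Ω → Fin (Q + 1)) : Finset Ω := univ.filter fun p => ∃ i, ω i p = 0

theorem pr_zz (ρ : ℕ) (S : Finset Ω) :
    pr (fun ω : Fin ρ → Ω → Fin (Q + 1) => S ⊆ zz ω) ≤ (ρ * (1 / (Q + 1 : ℝ))) ^ S.card := by
  rw [← pr_bij (Equiv.piComm fun _ _ => Fin (Q + 1)).bijective,
    pr_congr (F := fun ω : Ω → Fin ρ → Fin (Q + 1) => ∀ p ∈ S, ∃ i, ω p i = 0) fun ω => by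
      simp only [zz, subset_iff, mem_filter, mem_univ, true_and]
      rfl,
    pr_pi_on S fun _ (a : Fin ρ → Fin (Q + 1)) => ∃ i, a i = 0, prod_const]
  refine pow_le_pow_left₀ (pr_nonneg _) ?_ _
  have := pr_ex univ (fun i (a : Fin ρ → Fin (Q + 1)) => a i = 0) (ε := 1 / (Q + 1 : ℝ))
    fun i _ => by
      have := pr_pi_on {i} fun _ (a : Fin (Q + 1)) => a = 0
      simp only [mem_singleton, forall_eq, prod_singleton, pr_zero] at this
      exact this.le
  simpa using this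

/-- Every spread family of small sets has a member inside the random set, with high
probability. -/
def Sp {Θ : Type} [Fintype Θ] (Z : Θ → Finset Ω) (d : ℕ) (κ ε : ℝ) : Prop :=
  ∀ (I : Finset (Finset Ω)) (w : Finset Ω → ℝ) (T : Finset Ω → Finset Ω), (∀ i ∈ I, 0 ≤ w i) →
    0 < ∑ i ∈ I, w i → (∀ i ∈ I, (T i).card ≤ d) →
    (∀ S : Finset Ω, (∑ i ∈ I with S ⊆ T i, w i) * κ ^ S.card ≤ ∑ i ∈ I, w i) →
    pr (fun ω => ¬ ∃ i ∈ I, T i ⊆ Z ω) ≤ ε

theorem sp_zz (ρ : ℕ) {d : ℕ} {κ : ℝ} (hκ : 0 < κ) (hk : 2 * d * Q ≤ κ) :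
    Sp (fun ω : Fin ρ → Ω → Fin (Q + 1) => zz ω) d κ ((1 / 2) ^ ρ) := by
  intro I w T a b c e
  refine le_trans (pr_mono (F := fun ω : Fin ρ → Ω → Fin (Q + 1) =>
    ∀ l, ¬ ∃ i ∈ I, T i ⊆ nz (ω l)) fun ω h l ⟨i, hi, h'⟩ => h ⟨i, hi, fun p hp => ?_⟩) ?_
  · exact mem_filter.2 ⟨mem_univ _, l, mem_nz.1 (h' hp)⟩
  · rw [pr_pi fun _ (ω : Ω → Fin (Q + 1)) => ¬ ∃ i ∈ I, T i ⊆ nz ω, prod_const, card_univ,
      Fintype.card_fin]
    exact pow_le_pow_left₀ (pr_nonneg _) (spread I w T hκ hk a b c e) _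

end Pool.Agent.P.MP_d1c5a4_lc.NS
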